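import Pool.Agent.H45.DQ.Main

/-!
# Generic real pole placement by dynamic compensators, `m` and `p` even

For all even `m, p ≥ 2` and every `q`, real pole placement by compensators of McMillan degree `q`
fails for an open set of real systems of McMillan degree `n`, for all
`n ≥ q (m + p - 1) + m p`: the necessary bound `n ≤ q (m + p - 1) + m p` is never attained. Together
with the theorem of Rosenthal and Wang this determines the answer whenever `m` and `p` are even and
`q` is divisible by `m` or by `p`.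
-/

set_option autoImplicit false

open Polynomial

namespace Pool.Agent.Results.MP_cc7c04_an.EvenSizes

/-- The polynomial matrix `P` has full row rank and McMillan degree `n`: the largest degree of a
full-size minor is `n` (and this minor is not zero). -/
def IsSystem {r : ℕ} {J : Type} (n : ℕ) (P : Matrix (Fin r) J ℝ[X]) : Prop :=
  (∀ e : Fin r → J, (P.submatrix id e).det.natDegree ≤ n) ∧
    ∃ e : Fin r → J, (P.submatrix id e).det ≠ 0 ∧ (P.submatrix id e).det.natDegree = n

/-- There is a real system (of rank `m`) of McMillan degree `q` whose interconnection with the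
system of `P₁` is regular and has the characteristic polynomial `φ` (up to a nonzero
constant). -/
def Assignable {m p : ℕ} (q : ℕ) (P₁ : Matrix (Fin p) (Fin p ⊕ Fin m) ℝ[X]) (φ : ℝ[X]) : Prop :=
  ∃ P₂ : Matrix (Fin m) (Fin p ⊕ Fin m) ℝ[X], IsSystem q P₂ ∧
    (Matrix.fromRows P₁ P₂).det ≠ 0 ∧
      ∃ c : ℝ, c ≠ 0 ∧ (Matrix.fromRows P₁ P₂).det = C c * φ

/-- The `p × (m + p)` matrices with entries of degree at most `n`, of full row rank, whose largest
degree of a maximal minor is `n`. -/
def coeffSpace (m p n : ℕ) : Set (Matrix (Fin p) (Fin p ⊕ Fin m) ℝ[X]) :=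
  {P | (∀ i j, (P i j).natDegree ≤ n) ∧ IsSystem n P}

/-- The value of a polynomial `f` at the coefficient vector of `P`. -/
noncomputable def evalAt {m p n : ℕ} (P : Matrix (Fin p) (Fin p ⊕ Fin m) ℝ[X])
    (f : MvPolynomial (Fin p × (Fin p ⊕ Fin m) × Fin (n + 1)) ℝ) : ℝ :=
  MvPolynomial.eval (fun v => (P v.1 v.2.1).coeff v.2.2) f

/-- The Zariski-open subset of `coeffSpace m p n` where some member of `F` does not vanish. -/
def zariskiOpen (m p n : ℕ) (F : Set (MvPolynomial (Fin p × (Fin p ⊕ Fin m) × Fin (n + 1)) ℝ)) :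
    Set (Matrix (Fin p) (Fin p ⊕ Fin m) ℝ[X]) :=
  {P | P ∈ coeffSpace m p n ∧ ∃ f ∈ F, evalAt P f ≠ 0}

/-- `U` is Zariski-dense in `coeffSpace m p n`: a polynomial in the coefficients which vanishes on
`U` vanishes on `coeffSpace m p n`. -/
def ZariskiDense (m p n : ℕ) (U : Set (Matrix (Fin p) (Fin p ⊕ Fin m) ℝ[X])) : Prop :=
  ∀ g : MvPolynomial (Fin p × (Fin p ⊕ Fin m) × Fin (n + 1)) ℝ,
    (∀ P ∈ U, evalAt P g = 0) → ∀ P ∈ coeffSpace m p n, evalAt P g = 0

/-- The property of the question: for a generic set of real systems of rank `p` and McMillan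
degree `n`, every real polynomial of degree `n + q` is assignable. -/
def PoleAssignable (m p n q : ℕ) : Prop :=
  ∃ F : Set (MvPolynomial (Fin p × (Fin p ⊕ Fin m) × Fin (n + 1)) ℝ),
    ZariskiDense m p n (zariskiOpen m p n F) ∧
      ∀ P₁ ∈ zariskiOpen m p n F, ∀ φ : ℝ[X], φ.natDegree = n + q → Assignable q P₁ φ

/-- **Theorem.** For all even `m, p ≥ 2`, every `q` and all `n ≥ q (m + p - 1) + m p` the property of the
question fails. -/
theorem result (m p q n : ℕ) (hm : Even m) (hp : Even p) (hm0 : 1 ≤ m) (hp0 : 1 ≤ p)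
    (hn : q * (m + p - 1) + m * p ≤ n) : ¬ PoleAssignable m p n q := by
  obtain ⟨b, rfl⟩ := hm
  obtain ⟨a, rfl⟩ := hp
  rw [← two_mul] at hm0 hn ⊢
  rw [← two_mul] at hp0 hn ⊢
  exact Pool.Agent.H45.DQ.main a b q n (by omega) (by omega) hn

end Pool.Agent.Results.MP_cc7c04_an.EvenSizes
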