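import Pool.Agent.H73.DG.Run
import Pool.Agent.H73.DG.Thr

/-!
# MP_cc7c04_an: the parity of the numbers `d(m,p,q)` of dynamic pole placement

Over the real numbers the necessary condition `n ≤ q(m+p-1) + mp` is sufficient for the property of
Q1 whenever `d(m,p,q)` is odd (listed theorem of Ravi, Rosenthal and Wang). This file studies when
these numbers are odd: a formula through binary digits for `m + p` odd, evenness for `m + p` even,
periodicity in `q`, necessary conditions and monotonicity in `m` for `m + p` odd, odd values for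
every `m` and infinitely many `p`, and the complete answer for `m + p = 2 ^ k + 1`,
`m + p = 2 ^ k - 1`, `m + p = (2 ^ (a b) - 1) / (2 ^ a - 1)` and `m + p = (4 ^ (c g) - 1) / N` with
`N` a divisor of `2 ^ c + 1`.
-/

set_option autoImplicit false

namespace Pool.Agent.Results.MP_cc7c04_an.OddDegrees

open Pool.Agent.H73.DG

theorem result :
    -- (1) `d(m,p,q)` is an integer
    (∀ m p q : ℕ, ∃ D : ℤ, degNum m p q = (D : ℚ)) ∧
    -- (2) `m + p` odd: the parity by the binary digits of any `L` in the class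
    (∀ m p f N : ℕ, 1 ≤ m → m ≤ p → 1 ≤ N → N * (m + p) = 2 ^ f - 1 →
      ∀ q L, 1 ≤ L → L ≡ m * p + q * (m + p) [MOD 2 ^ f - 1] →
        (IsOddInt (degNum m p q) ↔ Odd (splitCard (m + p) m L))) ∧
    -- (3) `m + p` even
    (∀ m p q : ℕ, 2 ≤ m → m ≤ p → Even (m + p) → ¬ IsOddInt (degNum m p q)) ∧
    -- (4) `m + p` odd: the period in `q`, the number of binary digits one
    (∀ m p f N : ℕ, 1 ≤ m → 1 ≤ p → 1 ≤ N → N * (m + p) = 2 ^ f - 1 →
      (∀ q, IsOddInt (degNum m p (q + N)) ↔ IsOddInt (degNum m p q)) ∧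
      (m ≤ p → ∀ q L, 1 ≤ L → L ≡ m * p + q * (m + p) [MOD 2 ^ f - 1] →
        IsOddInt (degNum m p q) → m ≤ (Nat.digits 2 L).sum) ∧
      (m ≤ p → ∀ q, IsOddInt (degNum m p q) → m ≤ f)) ∧
    -- a lower bound for `q`
    (∀ m p q t : ℕ, m ≤ p → m ≤ 2 ^ t → IsOddInt (degNum m p q) → m ≤ q + t + 1) ∧
    -- odd values in every window of length `C(m+p-1, m-1)`
    (∀ m p Q : ℕ, 1 ≤ m → 1 ≤ p → Odd (m + p) → (∃ q, IsOddInt (degNum m p q)) →
      ∃ q, Q ≤ q ∧ q < Q + (m + p - 1).choose (m - 1) ∧ IsOddInt (degNum m p q)) ∧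
    -- monotonicity in `m` for fixed `m + p`
    (∀ m p m' p' : ℕ, 1 ≤ m' → m' ≤ m → m ≤ p → m' + p' = m + p → Odd (m + p) →
      (∃ q, IsOddInt (degNum m p q)) → ∃ q, IsOddInt (degNum m' p' q)) ∧
    -- (5) odd values for every `m`: if `2 m` consecutive residues are zero or powers of two
    (∀ b m p : ℕ, Odd (m + p) → 1 ≤ m → 1 ≤ p →
      (∀ j, j < 2 * m → (∃ i, 2 ^ i ≡ b + j [MOD m + p]) ∨ (m + p) ∣ b + j) →
      ∃ q, IsOddInt (degNum m p q)) ∧
    -- if minus one is a power of two and `m ≤ 3`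
    (∀ a m p : ℕ, 1 ≤ m → m ≤ 3 → 9 ≤ m + p → (m + p) ∣ 2 ^ a + 1 →
      ∃ q, IsOddInt (degNum m p q)) ∧
    -- if subset sums of the `a`-th roots of unity vanish only for more than `2 c` roots
    (∀ a r c m p : ℕ, Odd (a * r) → (∀ u, ∃ i, 2 ^ i ≡ 1 + a * u [MOD a * r]) →
      (∀ ζ : AlgebraicClosure (ZMod 2), IsPrimitiveRoot ζ a → ∀ T : Finset ℕ,
        T ⊆ Finset.range a → T.Nonempty → ∑ t ∈ T, ζ ^ t = 0 → 2 * c < T.card) →
      1 ≤ m → m ≤ r * c → 1 ≤ p → m + p = a * r → ∃ q, IsOddInt (degNum m p q)) ∧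
    -- if `2 c` consecutive residues modulo `a` are powers of two
    (∀ a r b c m p : ℕ, Odd (a * r) → (∀ u, ∃ i, 2 ^ i ≡ 1 + a * u [MOD a * r]) →
      (∀ j, j < 2 * c → ∃ i, 2 ^ i ≡ b + j [MOD a]) →
      1 ≤ m → m ≤ r * c → 1 ≤ p → m + p = a * r → ∃ q, IsOddInt (degNum m p q)) ∧
    -- the case `a = 2 ^ k - 1`
    (∀ k r m p : ℕ, 2 ≤ k → (∀ l : ℕ, l.Prime → l ∣ r → l ∣ 2 ^ k - 1) →
      1 ≤ m → m ≤ r → m + p = (2 ^ k - 1) * r → ∃ q, IsOddInt (degNum m p q)) ∧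
    -- (6) classifications for fixed `m + p`
    (∀ k m p q : ℕ, 1 ≤ m → m ≤ p → m + p = 2 ^ k + 1 →
      (IsOddInt (degNum m p q) ↔ m = 1 ∨ (m = 2 ∧ ∃ j, q % (2 ^ k - 1) + 1 = 2 ^ j) ∨
        (m = 3 ∧ (q % (2 ^ k - 1) = 3 ∨ q % (2 ^ k - 1) = 5)) ∨
        (k = 3 ∧ m = 4 ∧ q % 7 = 3))) ∧
    (∀ k m p q : ℕ, 1 ≤ m → m ≤ p → m + p = 2 ^ k - 1 → (IsOddInt (degNum m p q) ↔ m = 1)) ∧
    (∀ a b m p q : ℕ, 2 ≤ a → 3 ≤ b → 1 ≤ m → m ≤ p → (2 ^ a - 1) * (m + p) = 2 ^ (a * b) - 1 →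
      (IsOddInt (degNum m p q) ↔
        m = 1 ∨ (m = 2 ∧ ∃ j, 1 ≤ j ∧ j < a ∧ q + 1 ≡ 2 ^ j [MOD 2 ^ a - 1]))) ∧
    (∀ c N g m p q : ℕ, N ∣ 2 ^ c + 1 → 5 * N < 4 ^ c → 2 ≤ g → 1 ≤ m → m ≤ p →
      N * (m + p) = 4 ^ (c * g) - 1 →
      (IsOddInt (degNum m p q) ↔ m = 1 ∨ (m = 2 ∧ N ∣ q + 2 ∧ (N % 8 = 3 ∨ N % 8 = 5)))) ∧
    -- (7) `m + p = (2 ^ (e g) - 1) / N` with `g ≥ 2`: evenness for `m ≥ 3`
    (∀ N k e g m p q : ℕ, 1 ≤ N → 5 ≤ k → 2 ≤ g → 3 ≤ m → m ≤ p → N * k = 2 ^ e - 1 →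
      N * (m + p) = 2 ^ (e * g) - 1 → ¬ IsOddInt (degNum m p q)) ∧
    -- and the same parity for all `g ≥ 2`
    (∀ N k e g m p p' q : ℕ, 1 ≤ N → 1 ≤ m → 2 * m ≤ k + 1 → 2 ≤ g → N * k = 2 ^ e - 1 →
      N * (m + p) = 2 ^ (e * g) - 1 → N * (m + p') = 2 ^ (e * 2) - 1 →
      (IsOddInt (degNum m p q) ↔ IsOddInt (degNum m p' q))) ∧
    -- (8) the case `m = 2`
    (∀ h : ℕ, 1 ≤ h → (IsOddInt (degNum 2 (2 * h - 1) 1) ↔ Odd ((3 * h).choose h))) ∧
    (∀ h : ℕ, 1 ≤ h → (IsOddInt (degNum 2 (2 * h - 1) 2) ↔ ∃ r, 3 * h + 1 = 4 ^ r)) ∧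
    (∀ p f N q : ℕ, 1 ≤ p → 1 ≤ N → N * (p + 2) = 2 ^ f - 1 → N ∣ q + 2 →
      (IsOddInt (degNum 2 p q) ↔ p % 8 = 1 ∨ p % 8 = 3)) ∧
    (∀ p k c w q : ℕ, 1 ≤ p → c * (p + 2) = 2 ^ k + 1 → 1 ≤ w → w ≤ p + 1 →
      q + 2 = c * (w + 1) → (IsOddInt (degNum 2 p q) ↔ ∃ j, w = 2 ^ j)) := by
  refine ⟨?_, ?_, ?_, ?_, ?_, ?_, ?_, ?_, ?_, ?_, ?_, ?_, ?_, ?_, ?_, ?_, ?_, ?_, ?_, ?_, ?_, ?_⟩
  · intro m p q
    exact ⟨_, degNum_eq m p q⟩
  · intro m p f N hm hmp hN1 hN q L hL hmod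
    have hN' : N * (m + p) + 1 = 2 ^ f := by
      have h1 : 1 ≤ N * (m + p) := Nat.mul_pos hN1 (by omega)
      omega
    rw [← hN] at hmod
    exact split_iff m p q f N L hm hmp hN1 hN' hL hmod
  · intro m p q hm hmp he h
    have h1 := even_of_even m p q hm hmp he
    rw [even_degNum_iff] at h1
    rw [odd_degNum_iff] at h
    exact (Int.not_odd_iff_even.mpr h1) h
  · intro m p f N hm hp hN1 hN
    have hN' : N * (m + p) + 1 = 2 ^ f := by
      have h1 : 1 ≤ N * (m + p) := Nat.mul_pos hN1 (by omega)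
      omega
    refine ⟨?_, ?_, ?_⟩
    · intro q
      exact deg_period m p f N hm hp hN1 hN' q
    · intro hmp q L hL hmod hodd
      rw [← hN] at hmod
      exact digit_bound m p q f N L hm hmp hN1 hN' hL hmod hodd
    · intro hmp q h
      by_contra hfm
      have h1 := even_of_order m p q f N hmp hN1 hN' (by omega)
      rw [even_degNum_iff] at h1
      rw [odd_degNum_iff] at h
      exact (Int.not_odd_iff_even.mpr h1) h
  · intro m p q t hmp ht hodd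
    exact q_bound m p q t hmp ht hodd
  · intro m p Q hm hp hs hex
    exact odd_window m p hm hp hs hex Q
  · intro m p m' p' hm hmm hmp he hs hex
    exact mono m' p' m p hm hmm hmp he.symm (he ▸ hs) hex
  · intro b m p hodd hm hp hrun
    exact exists_odd_run b m p hodd hm hp hrun
  · intro a m p hm hm3 hs ha
    exact exists_odd_unitary a m p hm hm3 hs ha
  · intro a r c m p hodd h2 hcode hm hmr hp1 hp
    exact exists_odd_code a r c m p hodd hp1 h2 hcode hm hmr hp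
  · intro a r b c m p hodd h2 hrun hm hmr hp1 hp
    exact exists_odd_bch a r b c m p hodd hp1 h2 hrun hm hmr hp
  · intro k r m p hk hrad hm hmr hp
    exact exists_odd_mersenne k r m p hk hrad hm hmr hp
  · intro k m p q hm hmp hs
    exact cls k m p q hm hmp hs
  · intro k m p q hm hmp hs
    exact cls_mersenne k m p q hm hmp (by omega)
  · intro a b m p q ha hb hm hmp hs
    exact cls_rpu a b m p q ha hb hm hmp (by
      have := Nat.one_le_two_pow (n := a * b)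
      omega)
  · intro c N g m p q hN h5 hg hm hmp hs
    have h4 : 4 ^ c = 2 ^ (2 * c) := by
      rw [pow_mul]
      norm_num
    have h4' : 4 ^ (c * g) = 2 ^ (2 * c * g) := by
      rw [mul_assoc, pow_mul 2 2]
      norm_num
    exact cls_unit c N g m p q hN (h4 ▸ h5) hg hm hmp (by
      rw [h4'] at hs
      have := Nat.one_le_two_pow (n := 2 * c * g)
      omega)
  · intro N k e g m p q hN1 hk hg hm hmp hNk hs
    have h1 := Nat.one_le_two_pow (n := e)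
    have h2 := Nat.one_le_two_pow (n := e * g)
    exact even_three N k e g m p q (by omega) hN1 hk hg hm hmp (by omega)
  · intro N k e g m p p' q hN1 hm hk hg hNk hs hs'
    have h1 := Nat.one_le_two_pow (n := e)
    have h2 := Nat.one_le_two_pow (n := e * g)
    have h3 := Nat.one_le_two_pow (n := e * 2)
    exact stab N k e g m p p' q (by omega) hN1 hm hk hg (by omega) (by omega)
  · exact two_one
  · exact two_two
  · intro p f N q hp hN1 hN hq
    have hN' : N * (p + 2) + 1 = 2 ^ f := by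
      have h1 : 1 ≤ N * (p + 2) := Nat.mul_pos hN1 (by omega)
      omega
    exact ((parity p hp).2.2.1 f N hN1 hN').2 q hq
  · intro p k c w q hp hc hw1 hw hq
    exact family p hp k c w q hc hw1 hw hq

end Pool.Agent.Results.MP_cc7c04_an.OddDegrees
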